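import Pool.Agent.W36.GT.T9

set_option autoImplicit false

/-!
Linear patterns with sieve conditions in sets invariant under the maps `T_d`, for several constants
`d` at once.

Let `S i` be invariant under `T_{d i}` (for example a union of basins of cycles of `T_{d i}`, or the set
of the integers whose orbits avoid a given finite set), where the constants `d i` may be different.

Uniformly for all odd constants up to a small power of `N`, the property that the values of affine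
linear forms are in the sets `S i` is independent of all sieve conditions of bounded dimension on the
variables, in every residue class modulo a common multiple `L` of the constants. For given constants
prime to `6` and pairwise independent forms, the sifted points at which the values are in the sets
`S i` have among all sifted points of a residue class modulo a multiple of the constants the frequency
given by the product of the local densities of the sets, with an error which is small relative to the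
expected number of sifted points. So the basins of different maps `T_d` behave independently along
linear forms, and their patterns occur along almost primes. For a given `d`, all orbits of nonzero
integers meet a given finite set if for suitable systems and sieves the points at which all values have
orbits avoiding this set are few relative to the sifted points.
-/

namespace Pool.Agent.Results.MP_d0d59f_nt.SiftedPatterns

open Filter Topology

/-- The `3x+d` map on the integers. -/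
def T (d x : ℤ) : ℤ := if x % 2 = 0 then x / 2 else (3 * x + d) / 2

/-- `S` is invariant under `T d` and its inverse. -/
def Invariant (d : ℤ) (S : Set ℤ) : Prop := ∀ x : ℤ, x ∈ S ↔ T d x ∈ S

/-- The integers whose orbits under `T d` eventually avoid the set `F`. -/
def Avoids (d : ℤ) (F : Set ℤ) : Set ℤ := {x | ∃ k : ℕ, ∀ n : ℕ, k ≤ n → (T d)^[n] x ∉ F}

/-- `a` and `b` agree modulo `d` up to a factor `2 ^ i * 3 ^ j`. -/
def Rel (d a b : ℤ) : Prop := ∃ i j : ℕ, a ≡ 2 ^ i * 3 ^ j * b [ZMOD d]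

/-- `φ` gives the densities of `S`, on the side `s`, relative to the classes modulo `d`: it has values
in `[0, 1]`, it depends only on the residue modulo `d` up to factors `2` and `3`, the elements of `S`
which are congruent to `a` modulo `d` have natural density `φ a / |d|` on the side `s`, and `φ a` is
positive if `S` has an element of sign `s` prime to `3` in a class related to that of `a`. -/
def LocalDensity (d s : ℤ) (S : Set ℤ) (φ : ℤ → ℝ) : Prop :=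
  (∀ a : ℤ, 0 ≤ φ a ∧ φ a ≤ 1) ∧ (∀ a b : ℤ, Rel d a b → φ a = φ b) ∧
  (∀ a : ℤ, Tendsto (fun N : ℕ => ({n : ℤ | 0 < s * n ∧ s * n ≤ N ∧ n ∈ S ∧ n ≡ a [ZMOD d]}.ncard : ℝ) / N)
    atTop (𝓝 (φ a / d.natAbs))) ∧
  (∀ a x : ℤ, x ∈ S → 0 < s * x → ¬ (3 : ℤ) ∣ x → Rel d a x → 0 < φ a)

/-- A sieve problem in `D` variables: the classes in `Ω p` are to be removed for the primes `p ∈ Q`, and
the variables are `ρ` modulo `q`. -/
structure Sieve (D : ℕ) where
  Q : Finset ℕ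
  Ω : (p : ℕ) → Set (Fin D → ZMod p)
  q : ℕ
  ρ : Fin D → ℤ

/-- The elements of `Q` are primes up to `z`, for each of them `Ω p` consists of at most `κ p ^ (D - 1)` of
the `p ^ D` classes, the modulus `q` is odd, at most `z`, and divisible by none of them. -/
def Sieve.Valid {D : ℕ} (w : Sieve D) (κ : ℕ) (z : ℝ) : Prop :=
  (∀ p ∈ w.Q, p.Prime ∧ (p : ℝ) ≤ z ∧ ¬ p ∣ w.q ∧ (w.Ω p).ncard * p ≤ κ * p ^ D) ∧ w.q % 2 = 1 ∧ (w.q : ℝ) ≤ z

/-- The point `x` survives: modulo the primes of `Q` it is not in the sets `Ω p`, and it is `ρ` modulo `q`. -/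
def Sieve.Passes {D : ℕ} (w : Sieve D) (x : Fin D → ℤ) : Prop :=
  (∀ p ∈ w.Q, (fun j => (x j : ZMod p)) ∉ w.Ω p) ∧ ∀ j, (w.q : ℤ) ∣ x j - w.ρ j

/-- The expected density of the surviving points. -/
noncomputable def Sieve.dens {D : ℕ} (w : Sieve D) : ℝ := (∏ p ∈ w.Q, (1 - ((w.Ω p).ncard : ℝ) / (p : ℝ) ^ D)) / (w.q : ℝ) ^ D

/-- The sieve problem with the only condition that the variables are `ρ` modulo `L`. -/
def Sieve.coarse {D : ℕ} (w : Sieve D) (L : ℕ) : Sieve D := ⟨∅, w.Ω, L, w.ρ⟩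

/-- The number of the surviving points `x` of the box `∏ (P j, P' j]` such that, for every `i`, the value
`Λ i • x + c i` of the `i`-th form is in `S i`, has sign `s i`, and its absolute value is in `(M i, N i]`. -/
noncomputable def Points {D r : ℕ} (Λ : Fin r → Fin D → ℤ) (c s : Fin r → ℤ) (M N : Fin r → ℕ) (P P' : Fin D → ℤ)
    (w : Sieve D) (S : Fin r → Set ℤ) : ℕ :=
  {x : Fin D → ℤ | (∀ j, P j < x j ∧ x j ≤ P' j) ∧ w.Passes x ∧ ∀ i, (∑ j, Λ i j * x j + c i) ∈ S i ∧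
    (M i : ℤ) < s i * (∑ j, Λ i j * x j + c i) ∧ s i * (∑ j, Λ i j * x j + c i) ≤ N i}.ncard

/-- The number of the surviving points with coordinates in `(-N, N]` such that the value of the `i`-th
linear form is of sign `s i`, of absolute value at most `N`, and in `S i`, for every `i`. -/
noncomputable def Patterns {D r : ℕ} (Λ : Fin r → Fin D → ℤ) (s : Fin r → ℤ) (N : ℕ) (w : Sieve D) (S : Fin r → Set ℤ) : ℕ :=
  Points Λ 0 s (fun _ => 0) (fun _ => N) (fun _ => -(N : ℤ)) (fun _ => (N : ℤ)) w S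

open Pool.Agent.W41 Pool.Agent.H499R2.ND Pool.Agent.H499R2.CO Pool.Agent.W41.FU Pool.Agent.W36.FD Pool.Agent.W36.GK Pool.Agent.W36.GT
open Pool.Agent.W36.GS (pts sgq sg rd VV VV_nonneg)

theorem inv_of {d : ℤ} {S : Set ℤ} (hS : Invariant d S) : Inv d S := hS

theorem dens_iff {d s : ℤ} (hs : s = 1 ∨ s = -1) {S : Set ℤ} {φ : ℤ → ℝ} :
    DD s S d.natAbs (fun c => φ c / (d.natAbs : ℝ)) ↔
    (∀ a : ℤ, Tendsto (fun N : ℕ => ({n : ℤ | 0 < s * n ∧ s * n ≤ N ∧ n ∈ S ∧ n ≡ a [ZMOD d]}.ncard : ℝ) / N)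
      atTop (𝓝 (φ a / d.natAbs))) := by
  have e1 : ∀ (a : ℤ) (N : ℕ), {n : ℤ | 0 < s * n ∧ s * n ≤ N ∧ n ∈ S ∧ n ≡ a [ZMOD d]}.ncard
      = cA s S d.natAbs a N := by
    intro a N
    rw [← cA_ncard hs]
    congr 1
    ext n
    have : n ≡ a [ZMOD d] ↔ n ≡ a [ZMOD (d.natAbs : ℤ)] := by
      rw [Int.modEq_iff_dvd, Int.modEq_iff_dvd, Int.natAbs_dvd]
    simp only [Set.mem_ofPred_eq, this]
  simp only [e1]
  rfl

theorem local_phi {d s : ℤ} (hs : s = 1 ∨ s = -1) {S : Set ℤ} {φ : ℤ → ℝ} (h : LocalDensity d s S φ) :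
    IsPhi d s S φ := ⟨h.1, h.2.1, (dens_iff hs).2 h.2.2.1⟩

theorem exists_local {d : ℤ} (hd : d % 6 = 1 ∨ d % 6 = 5) {s : ℤ} (hs : s = 1 ∨ s = -1) {S : Set ℤ}
    (hS : Invariant d S) : ∃ φ : ℤ → ℝ, LocalDensity d s S φ := by
  obtain ⟨φ, ⟨h1, h2, h3⟩, h4⟩ := exists_phi hd hs (inv_of hS)
  exact ⟨φ, h1, h2, (dens_iff hs).1 h3, h4⟩

theorem points_eq {D r : ℕ} (Λ : Fin r → Fin D → ℤ) (c s : Fin r → ℤ) (M N : Fin r → ℕ) (P P' : Fin D → ℤ)
    (w : Sieve D) (S : Fin r → Set ℤ) :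
    (Points Λ c s M N P P' w S : ℝ) = ∑ x ∈ pts Λ c s M N P P' S, sgq w.q (rd w.q w.ρ) w.Q w.Ω x := by
  classical
  have hcl : ∀ x : Fin D → ℤ, (∀ j, (w.q : ℤ) ∣ x j - w.ρ j) ↔ rd w.q x = rd w.q w.ρ := by
    intro x
    rw [funext_iff]
    apply forall_congr'
    intro j
    unfold rd
    rw [← ZMod.intCast_zmod_eq_zero_iff_dvd, Int.cast_sub, sub_eq_zero]
  have e1 : ∀ x, sgq w.q (rd w.q w.ρ) w.Q w.Ω x = if w.Passes x then 1 else 0 := by
    intro x
    unfold sgq sg Sieve.Passes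
    rw [hcl]
    by_cases h1 : rd w.q x = rd w.q w.ρ
    · by_cases h2 : ∀ p ∈ w.Q, rd p x ∉ w.Ω p
      · rw [if_pos h1, if_pos h2, if_pos ⟨h2, h1⟩]
      · rw [if_pos h1, if_neg h2, if_neg (fun h3 => h2 h3.1)]
    · rw [if_neg h1, if_neg (fun h3 => h1 h3.2)]
  simp only [e1]
  rw [← Finset.sum_filter, Finset.sum_const, nsmul_eq_mul, mul_one]
  unfold Points
  have e2 : {x : Fin D → ℤ | (∀ j, P j < x j ∧ x j ≤ P' j) ∧ w.Passes x ∧ ∀ i, (∑ j, Λ i j * x j + c i) ∈ S i ∧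
    (M i : ℤ) < s i * (∑ j, Λ i j * x j + c i) ∧ s i * (∑ j, Λ i j * x j + c i) ≤ N i} =
      ((pts Λ c s M N P P' S).filter (fun x => w.Passes x) : Set (Fin D → ℤ)) := by
    ext x
    unfold pts
    rw [Finset.coe_filter]
    simp only [Set.mem_ofPred_eq, Finset.mem_filter, mem_box]
    constructor
    · rintro ⟨a, b, c⟩; exact ⟨⟨a, c⟩, b⟩
    · rintro ⟨⟨a, c⟩, b⟩; exact ⟨a, b, c⟩
  rw [e2, Set.ncard_coe_finset]

theorem dens_eq {D : ℕ} (w : Sieve D) : w.dens = VV w.Q w.Ω / (w.q : ℝ) ^ D := rfl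

theorem many {D r : ℕ} {d : Fin r → ℤ} (hd : ∀ i, d i % 6 = 1 ∨ d i % 6 = 5) {Λ : Fin r → Fin (D + 1) → ℤ}
    (hΛ : ∀ i j, i ≠ j → ∀ a b : ℤ, a • Λ i = b • Λ j → a = 0 ∧ b = 0)
    {s : Fin r → ℤ} (hs : ∀ i, s i = 1 ∨ s i = -1) {v : Fin (D + 1) → ℤ} (hv : ∀ i, 0 < s i * ∑ j, Λ i j * v j)
    {S : Fin r → Set ℤ} (hS : ∀ i, Invariant (d i) (S i))
    (hne : ∀ i, ∃ x ∈ S i, 0 < s i * x ∧ ¬ (3 : ℤ) ∣ x ∧ Rel (d i) (∑ j, Λ i j * v j) x) (κ : ℕ) :
    ∃ β : ℝ, 0 < β ∧ ∃ θ : ℝ, 0 < θ ∧ ∃ N₀ : ℕ, ∀ N : ℕ, N₀ ≤ N →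
      ∀ w : Sieve (D + 1), w.Valid κ ((N : ℝ) ^ θ) → (∀ i, d i ∣ (w.q : ℤ)) → (∀ i j, d i ∣ w.ρ j - v j) →
        β * w.dens * N ^ (D + 1) ≤ Patterns Λ s N w S := by
  choose φ hφ using fun i => exists_local (hd i) (hs i) (hS i)
  obtain ⟨β, hβ, θ, hθ, N₀, h⟩ := manyDD (κ := κ) hd hΛ hs hv (fun i => inv_of (hS i)) (fun i => local_phi (hs i) (hφ i)) (fun i => by
    obtain ⟨x, h1, h2, h3, h4⟩ := hne i
    exact (hφ i).2.2.2 _ x h1 h2 h3 h4)
  refine ⟨β, hβ, θ, hθ, N₀, fun N hN w hw hq hρ => ?_⟩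
  have h1 := h N hN w.Q (fun p hp => ⟨(hw.1 p hp).1, (hw.1 p hp).2.1⟩) w.Ω (fun p hp => (hw.1 p hp).2.2.2) w.q hw.2.1 hw.2.2 hq
    (fun p hp => (hw.1 p hp).2.2.1) w.ρ hρ
  unfold Patterns
  rw [points_eq, dens_eq]
  exact h1

theorem sufficient {D r : ℕ} {d : ℤ} (hd : d % 6 = 1 ∨ d % 6 = 5) {Λ : Fin r → Fin (D + 1) → ℤ}
    (hΛ : ∀ i j, i ≠ j → ∀ a b : ℤ, a • Λ i = b • Λ j → a = 0 ∧ b = 0)
    {s : ℤ} (hs : s = 1 ∨ s = -1) {v : Fin (D + 1) → ℤ} (hv : ∀ i, 0 < s * ∑ j, Λ i j * v j) (κ : ℕ) {ψ : ℕ → ℝ} (hψ : Tendsto ψ atTop (𝓝 0))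
    {S : Set ℤ} (hS : Invariant d S) (h : ∃ᶠ N : ℕ in atTop, ∃ w : Sieve (D + 1), w.Valid κ ((N : ℝ) ^ ψ N) ∧ d ∣ (w.q : ℤ) ∧
      (∀ j, d ∣ w.ρ j - v j) ∧ w.dens ≠ 0 ∧ (Patterns Λ (fun _ => s) N w (fun _ => S) : ℝ) ≤ ψ N * w.dens * N ^ (D + 1)) :
    ∀ x ∈ S, 0 < s * x → ¬ (3 : ℤ) ∣ x → ∃ i, ¬ Rel d (∑ j, Λ i j * v j) x := by
  intro x hxS hx hx3
  by_contra hcon
  push Not at hcon
  obtain ⟨β, hβ, θ, hθ, N0, hN0⟩ := many (d := fun _ => d) (fun _ => hd) hΛ (s := fun _ => s) (fun _ => hs) hv (S := fun _ => S) (fun _ => hS)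
    (fun i => ⟨x, hxS, hx, hx3, hcon i⟩) κ
  have h1 : ∀ᶠ N : ℕ in atTop, ψ N < min β θ := (tendsto_order.1 hψ).2 _ (lt_min hβ hθ)
  obtain ⟨N, ⟨w, hw, hq, hρ, hw0, h2⟩, h3, h4⟩ := (h.and_eventually (h1.and (eventually_ge_atTop (N0 + 1)))).exists
  have hNp : (1 : ℝ) ≤ N := by exact_mod_cast (by omega : 1 ≤ N)
  have hz : (N : ℝ) ^ ψ N ≤ (N : ℝ) ^ θ := Real.rpow_le_rpow_of_exponent_le hNp (h3.le.trans (min_le_right _ _))
  have hw' : w.Valid κ ((N : ℝ) ^ θ) :=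
    ⟨fun p hp => ⟨(hw.1 p hp).1, (hw.1 p hp).2.1.trans hz, (hw.1 p hp).2.2⟩, hw.2.1, hw.2.2.trans hz⟩
  have h5 := hN0 N (by omega) w hw' (fun _ => hq) (fun _ => hρ)
  have hd0 : 0 < w.dens := by
    have h6 : 0 ≤ w.dens := by
      rw [dens_eq]
      have := VV_nonneg (fun p hp => (hw.1 p hp).1) w.Ω
      positivity
    exact lt_of_le_of_ne h6 (Ne.symm hw0)
  have h6 : 0 < w.dens * (N : ℝ) ^ (D + 1) := by positivity
  have h7 : ψ N < β := h3.trans_le (min_le_left _ _)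
  have h8 : ψ N * (w.dens * (N : ℝ) ^ (D + 1)) < β * (w.dens * (N : ℝ) ^ (D + 1)) := mul_lt_mul_of_pos_right h7 h6
  linarith

theorem avoids_inv (d : ℤ) (F : Set ℤ) : Invariant d (Avoids d F) := by
  intro x
  constructor
  · rintro ⟨k, hk⟩
    refine ⟨k, fun n hn => ?_⟩
    rw [← Function.iterate_succ_apply]
    exact hk (n + 1) (by omega)
  · rintro ⟨k, hk⟩
    refine ⟨k + 1, fun n hn => ?_⟩
    obtain ⟨m, rfl⟩ : ∃ m, n = m + 1 := ⟨n - 1, by omega⟩
    rw [Function.iterate_succ_apply]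
    exact hk m (by omega)

/-- every nonzero orbit reaches a nonzero number prime to `3` -/
theorem reaches_cop {d : ℤ} (hd : d % 6 = 1 ∨ d % 6 = 5) {x : ℤ} (hx : x ≠ 0) :
    ∃ j : ℕ, (T d)^[j] x ≠ 0 ∧ ¬ (3 : ℤ) ∣ (T d)^[j] x := by
  obtain ⟨e, y, hy, hxy⟩ : ∃ (e : ℕ) (y : ℤ), y % 2 = 1 ∧ x = 2 ^ e * y := by
    obtain ⟨n, hn⟩ : ∃ n : ℕ, n = x.natAbs := ⟨_, rfl⟩
    induction n using Nat.strong_induction_on generalizing x with
    | _ n ih =>
      rcases Int.emod_two_eq_zero_or_one x with h | h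
      · obtain ⟨e, y, hy, hxy⟩ := ih (x / 2).natAbs (by omega) (x := x / 2) (by omega) rfl
        refine ⟨e + 1, y, hy, ?_⟩
        have : x = 2 * (x / 2) := by omega
        rw [this, hxy, pow_succ]
        ring
      · exact ⟨0, x, h, by simp⟩
  refine ⟨e + 1, ?_⟩
  have h1 : (T d)^[e] x = y := by
    rw [hxy]
    exact Td_two_pow d e y
  rw [Function.iterate_succ_apply', h1]
  unfold T
  rw [if_neg (by omega)]
  have h2 : 2 * ((3 * y + d) / 2) = 3 * y + d := by omega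
  constructor <;> omega

theorem inv_iter' {d : ℤ} {S : Set ℤ} (hS : Invariant d S) : ∀ (n : ℕ) (x : ℤ), x ∈ S ↔ (T d)^[n] x ∈ S := by
  intro n
  induction n with
  | zero => intro x; rfl
  | succ n ih => intro x; rw [Function.iterate_succ_apply, ← ih, ← hS]

/-- (A) Uniformly in the constants: for linear forms which are not zero (no independence is needed),
signs, `κ` and `ε > 0` there is `θ > 0` such that for every sieve of dimension `κ` with primes and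
modulus `q` at most `N ^ θ`, every divisor `L` of `q`, all divisors `d i` of `L`, all sets `S i` invariant
under `T (d i)`, all constant terms, boxes of side at most `N` and intervals, the numbers of the points
with values in the sets `S i` and in the intervals, with all sieve conditions and with the condition
modulo `L` alone, agree when divided by the expected densities of the sifted points; the error is `ε`
times the expected number of the surviving points of a box of side `N`.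
(B) For constants `d i` prime to `6`, which may be different, and pairwise independent forms: the number
of the surviving points with values in the sets `S i` and in the intervals, in a residue class modulo a
multiple of all the constants, is the product of the local densities times the number of the surviving
points with values in the intervals, up to `ε` times the expected number of the surviving points of a
box of side `N`; uniformly in the sets.
(C) Suppose that at some point `v` the pairwise independent linear forms have values of sign `s i` which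
agree modulo `d i`, up to factors `2` and `3`, with elements of sign `s i` and prime to `3` of given sets
`S i` invariant under `T (d i)`. (1) Then in the class of `v` at least `β` times the expected number of
the surviving points are such that the values are of sign `s i`, of size at most `N`, and in `S i`.
(2) If moreover no prime divides the product of the forms identically, then for some `A`, every odd
multiple `q` of the constants, every class `ρ` modulo `q` which is that of `v` modulo the constants and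
at which no form is divisible by the full power of a prime in `q`, and every `N ≥ A q ^ A`, at least
`N ^ D' / (q ^ D' (log N) ^ A)` points of the class (`D'` is the number of variables) are such that the
values are of sign `s i`, of size at most `N`, in `S i`, and have at most `A` prime factors apart from
those of the greatest common divisor with `q`.
(D) Let `S` be invariant under `T d`. If for infinitely many `N` there is a sieve of dimension `κ` with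
primes and modulus at most `N ^ o(1)` in the class of `v` for which only `o` of the expected number of
the surviving points have all values in `S` and of sign `s`, then no element of `S` of sign `s` prime to
`3` is related to all values of the forms at `v`.
(E) If this holds for both signs and all classes modulo `d` (with any systems of forms) and for the set
of the integers whose orbits under `T d` eventually avoid a finite set `F`, then the orbit of every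
nonzero integer meets `F` infinitely often, so every orbit meets `F ∪ {0}`. -/
theorem result :
    (∀ (D r κ : ℕ) (Λ : Fin r → Fin (D + 1) → ℤ), (∀ i, Λ i ≠ 0) →
      ∀ s : Fin r → ℤ, (∀ i, s i = 1 ∨ s i = -1) → ∀ ε : ℝ, 0 < ε → ∃ θ : ℝ, 0 < θ ∧ ∃ N₀ : ℕ, ∀ N : ℕ, N₀ ≤ N →
      ∀ w : Sieve (D + 1), w.Valid κ ((N : ℝ) ^ θ) → ∀ L : ℕ, L ∣ w.q → ∀ d : Fin r → ℤ, (∀ i, d i ∣ (L : ℤ)) →
      ∀ S : Fin r → Set ℤ, (∀ i, Invariant (d i) (S i)) → ∀ c : Fin r → ℤ, ∀ M N' : Fin r → ℕ, (∀ i, M i ≤ N' i) →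
      ∀ P P' : Fin (D + 1) → ℤ, (∀ j, P' j - P j ≤ N) →
        |(Points Λ c s M N' P P' w S : ℝ) - w.dens * L ^ (D + 1) * Points Λ c s M N' P P' (w.coarse L) S| ≤
          ε * w.dens * N ^ (D + 1)) ∧
    (∀ (D r κ : ℕ) (d : Fin r → ℤ), (∀ i, d i % 6 = 1 ∨ d i % 6 = 5) → ∀ Λ : Fin r → Fin (D + 1) → ℤ, (∀ i, Λ i ≠ 0) →
      (∀ i j, i ≠ j → ∀ a b : ℤ, a • Λ i = b • Λ j → a = 0 ∧ b = 0) →
      ∀ s : Fin r → ℤ, (∀ i, s i = 1 ∨ s i = -1) → ∀ ε : ℝ, 0 < ε → ∃ θ : ℝ, 0 < θ ∧ ∃ N₀ : ℕ,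
      ∀ S : Fin r → Set ℤ, (∀ i, Invariant (d i) (S i)) →
      ∃ φ : Fin r → ℤ → ℝ, (∀ i, LocalDensity (d i) (s i) (S i) (φ i)) ∧
      ∀ N : ℕ, N₀ ≤ N → ∀ w : Sieve (D + 1), w.Valid κ ((N : ℝ) ^ θ) → (∀ i, d i ∣ (w.q : ℤ)) →
      ∀ c : Fin r → ℤ, ∀ M N' : Fin r → ℕ, (∀ i, M i ≤ N' i) → (∀ i, N' i ≤ N) →
      ∀ P P' : Fin (D + 1) → ℤ, (∀ j, P' j - P j ≤ N) →
        |(Points Λ c s M N' P P' w S : ℝ) -
          (∏ i, φ i (∑ j, Λ i j * w.ρ j + c i)) * Points Λ c s M N' P P' w (fun _ => Set.univ)| ≤ ε * w.dens * N ^ (D + 1)) ∧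
    (∀ (D r : ℕ) (d : Fin r → ℤ), (∀ i, d i % 6 = 1 ∨ d i % 6 = 5) → ∀ Λ : Fin r → Fin (D + 1) → ℤ,
      (∀ i j, i ≠ j → ∀ a b : ℤ, a • Λ i = b • Λ j → a = 0 ∧ b = 0) →
      ∀ s : Fin r → ℤ, (∀ i, s i = 1 ∨ s i = -1) → ∀ v : Fin (D + 1) → ℤ, (∀ i, 0 < s i * ∑ j, Λ i j * v j) →
      ∀ S : Fin r → Set ℤ, (∀ i, Invariant (d i) (S i)) →
      (∀ i, ∃ x ∈ S i, 0 < s i * x ∧ ¬ (3 : ℤ) ∣ x ∧ Rel (d i) (∑ j, Λ i j * v j) x) →
        (∀ κ : ℕ, ∃ β : ℝ, 0 < β ∧ ∃ θ : ℝ, 0 < θ ∧ ∃ N₀ : ℕ, ∀ N : ℕ, N₀ ≤ N → ∀ w : Sieve (D + 1), w.Valid κ ((N : ℝ) ^ θ) →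
          (∀ i, d i ∣ (w.q : ℤ)) → (∀ i j, d i ∣ w.ρ j - v j) → β * w.dens * N ^ (D + 1) ≤ Patterns Λ s N w S) ∧
        ((∀ p : ℕ, p.Prime → ∃ u : Fin (D + 1) → ℤ, ∀ i, ¬ (p : ℤ) ∣ ∑ j, Λ i j * u j) →
          ∃ A : ℕ, ∀ q : ℕ, q % 2 = 1 → (∀ i, d i ∣ (q : ℤ)) → ∀ ρ : Fin (D + 1) → ℤ, (∀ i j, d i ∣ ρ j - v j) →
          (∀ i, ∀ p : ℕ, p.Prime → p ∣ q → ¬ ((p ^ q.factorization p : ℕ) : ℤ) ∣ ∑ j, Λ i j * ρ j) →
          ∀ N : ℕ, A * q ^ A ≤ N → (N : ℝ) ^ (D + 1) ≤ (q : ℝ) ^ (D + 1) * Real.log N ^ A *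
            ({x : Fin (D + 1) → ℤ | (∀ j, -(N : ℤ) < x j ∧ x j ≤ N ∧ (q : ℤ) ∣ x j - ρ j) ∧
              ∀ i, (∑ j, Λ i j * x j) ∈ S i ∧ 0 < s i * (∑ j, Λ i j * x j) ∧ s i * (∑ j, Λ i j * x j) ≤ N ∧
                ArithmeticFunction.cardFactors ((∑ j, Λ i j * x j).natAbs / Nat.gcd (∑ j, Λ i j * x j).natAbs q) ≤ A}.ncard : ℝ))) ∧
    (∀ (D r κ : ℕ) (d : ℤ), (d % 6 = 1 ∨ d % 6 = 5) → ∀ Λ : Fin r → Fin (D + 1) → ℤ,
      (∀ i j, i ≠ j → ∀ a b : ℤ, a • Λ i = b • Λ j → a = 0 ∧ b = 0) → ∀ s : ℤ, (s = 1 ∨ s = -1) →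
      ∀ v : Fin (D + 1) → ℤ, (∀ i, 0 < s * ∑ j, Λ i j * v j) → ∀ ψ : ℕ → ℝ, Tendsto ψ atTop (𝓝 0) →
      ∀ S : Set ℤ, Invariant d S →
        (∃ᶠ N : ℕ in atTop, ∃ w : Sieve (D + 1), w.Valid κ ((N : ℝ) ^ ψ N) ∧ d ∣ (w.q : ℤ) ∧ (∀ j, d ∣ w.ρ j - v j) ∧ w.dens ≠ 0 ∧
          (Patterns Λ (fun _ => s) N w (fun _ => S) : ℝ) ≤ ψ N * w.dens * N ^ (D + 1)) →
        ∀ x ∈ S, 0 < s * x → ¬ (3 : ℤ) ∣ x → ∃ i, ¬ Rel d (∑ j, Λ i j * v j) x) ∧
    (∀ d : ℤ, (d % 6 = 1 ∨ d % 6 = 5) → ∀ F : Finset ℤ,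
      (∀ s a : ℤ, (s = 1 ∨ s = -1) → ∃ (D r κ : ℕ) (Λ : Fin r → Fin (D + 1) → ℤ) (v : Fin (D + 1) → ℤ) (ψ : ℕ → ℝ),
        (∀ i j, i ≠ j → ∀ a b : ℤ, a • Λ i = b • Λ j → a = 0 ∧ b = 0) ∧
        (∀ i, 0 < s * ∑ j, Λ i j * v j ∧ Rel d (∑ j, Λ i j * v j) a) ∧ Tendsto ψ atTop (𝓝 0) ∧
        ∃ᶠ N : ℕ in atTop, ∃ w : Sieve (D + 1), w.Valid κ ((N : ℝ) ^ ψ N) ∧ d ∣ (w.q : ℤ) ∧ (∀ j, d ∣ w.ρ j - v j) ∧ w.dens ≠ 0 ∧
          (Patterns Λ (fun _ => s) N w (fun _ => Avoids d F) : ℝ) ≤ ψ N * w.dens * N ^ (D + 1)) →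
      (∀ x : ℤ, x ≠ 0 → ∀ k : ℕ, ∃ n : ℕ, k ≤ n ∧ (T d)^[n] x ∈ F) ∧ ∀ x : ℤ, ∃ n : ℕ, (T d)^[n] x ∈ insert 0 F) := by
  refine ⟨fun D r κ Λ h0 s hs ε hε => ?_, fun D r κ d hd Λ h0 hΛ s hs ε hε => ?_,
    fun D r d hd Λ hΛ s hs v hv S hS hne => ⟨fun κ => many hd hΛ hs hv hS hne κ, fun hadm => ?_⟩,
    fun D r κ d hd Λ hΛ s hs v hv ψ hψ S hS h => sufficient hd hΛ hs hv κ hψ hS h, fun d hd F h => ?_⟩
  · obtain ⟨θ, hθ, N₀, h⟩ := cmpX (κ := κ) h0 hs hε
    refine ⟨θ, hθ, N₀, fun N hN w hw L hL d hdL S hS c M N' hM P P' hP => ?_⟩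
    rw [points_eq, points_eq, dens_eq]
    have h1 := h N hN w.Q (fun p hp => ⟨(hw.1 p hp).1, (hw.1 p hp).2.1⟩) w.Ω (fun p hp => (hw.1 p hp).2.2.2)
      w.q hw.2.1 hw.2.2 (fun p hp => (hw.1 p hp).2.2.1) w.ρ L hL d hdL S (fun i x => inv_of (hS i) x) c M N' hM P P' hP
    have e1 : VV w.Q w.Ω / ((w.q : ℝ) / L) ^ (D + 1) = VV w.Q w.Ω / (w.q : ℝ) ^ (D + 1) * (L : ℝ) ^ (D + 1) := by
      rw [div_pow, div_div_eq_mul_div]; ring
    rw [e1] at h1
    exact h1
  · obtain ⟨θ, hθ, N₀, h⟩ := relDD (κ := κ) hd h0 hΛ hs hε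
    refine ⟨θ, hθ, N₀, fun S hS => ?_⟩
    choose φ hφ using fun i => exists_local (hd i) (hs i) (hS i)
    refine ⟨φ, hφ, fun N hN w hw hq c M N' hM hN' P P' hP => ?_⟩
    rw [points_eq, points_eq, dens_eq]
    exact h S (fun i => inv_of (hS i)) φ (fun i => local_phi (hs i) (hφ i)) N hN w.Q (fun p hp => ⟨(hw.1 p hp).1, (hw.1 p hp).2.1⟩) w.Ω
      (fun p hp => (hw.1 p hp).2.2.2) w.q hw.2.1 hw.2.2 hq (fun p hp => (hw.1 p hp).2.2.1) w.ρ c M N' hM hN' P P' hP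
  · choose φ hφ using fun i => exists_local (hd i) (hs i) (hS i)
    exact patternsDD hd hΛ hadm hs hv (fun i => inv_of (hS i)) (fun i => local_phi (hs i) (hφ i)) (fun i => by
      obtain ⟨x, h1, h2, h3, h4⟩ := hne i
      exact (hφ i).2.2.2 _ x h1 h2 h3 h4)
  · have key : ∀ x : ℤ, x ≠ 0 → x ∉ Avoids d F := by
      intro x hx hxA
      obtain ⟨j, hj1, hj2⟩ := reaches_cop hd hx
      have hA := (inv_iter' (avoids_inv d F) j x).1 hxA
      obtain ⟨y, hy⟩ : ∃ y, y = (T d)^[j] x := ⟨_, rfl⟩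
      rw [← hy] at hj1 hj2 hA
      have key2 : ∀ s : ℤ, (s = 1 ∨ s = -1) → ¬ 0 < s * y := by
        intro s hs hsy
        obtain ⟨D, r, κ, Λ, v, ψ, hΛ, hv, hψ, h1⟩ := h s y hs
        obtain ⟨i, hi⟩ := sufficient hd hΛ hs (fun i => (hv i).1) κ hψ (avoids_inv d F) h1 y hA hsy hj2
        exact hi (hv i).2
      have h1 := key2 1 (Or.inl rfl)
      have h2 := key2 (-1) (Or.inr rfl)
      omega
    have key3 : ∀ x : ℤ, x ≠ 0 → ∀ k : ℕ, ∃ n : ℕ, k ≤ n ∧ (T d)^[n] x ∈ F := by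
      intro x hx k
      by_contra hcon
      push Not at hcon
      exact key x hx ⟨k, fun n hn h => hcon n hn (by exact_mod_cast h)⟩
    refine ⟨key3, fun x => ?_⟩
    rcases eq_or_ne x 0 with rfl | hx
    · exact ⟨0, by simp⟩
    · obtain ⟨n, -, hn⟩ := key3 x hx 0
      exact ⟨n, Finset.mem_insert_of_mem hn⟩

end Pool.Agent.Results.MP_d0d59f_nt.SiftedPatterns
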