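import Pool.Agent.W36.UM
import Pool.Agent.H828R3.GP.Three

set_option autoImplicit false

/-! # The `3x+d` maps: a power saving bound that is uniform in `d`, at the scale `|d|`

For every exponent `c < 1 - H(log 2 / log 3) = 0.05004...` (`H` the binary entropy in bits) there is ONE
constant `C` such that for ALL odd `d` prime to `3`, all `X ≥ 1` and all `y > 0` at most
`C X (|d| / y) ^ c` of the integers `x` with `|x| ≤ X` have a `3x+d` orbit without an element in `[-y, y]`.

In particular for every `δ > 0` there is a number `A` (namely `A = (C / δ) ^ (1 / c)`) such that for every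
`d` the finite set `F_d = {x : |x| ≤ A |d|}` is met by the orbits of all but at most `δ X` of the integers in
`[-X, X]`, for every `X ≥ 1`: the finite sets of the question, outside a set of integers of small
density, with size `O(|d|)` uniformly in `d`.

Since `T_d (d x) = d T_1 x`, the set of the multiples of `d` already shows that for `y = A |d|` nothing
smaller than the scale `|d|` can be expected.

Method: the one stage inequality for the densities in the classes modulo powers of `3` (files
`H319R3/GC`, `H828R3/GP`) at the relative scales `|d| a`: the offset of a parity word for `3x+d` is `d` times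
the one for `3x+1`, and multiplication by `d` permutes the classes modulo a power of `3`; below a scale
`|d| exp (w ^ γ)` a first passage count at the scales `|d| 2 ^ i`, in which the preimages of a point in the
stuck set all lie in one class modulo `d`. -/

namespace Pool.Agent.Results.MP_d0d59f_nt.UniformInD

open Pool.Agent.H319R3.GC (Adm Tm PP)
open Pool.Agent.H828R3.GP (m3 r3 adm3 Tm3)
open Pool.Agent.W36 (kr power_savingU)

/-- the `3x+d` map on the integers -/
def T (d x : ℤ) : ℤ := if x % 2 = 0 then x / 2 else (3 * x + d) / 2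

theorem T_eq (d : ℤ) : T d = Pool.Agent.H499R2.ND.Td d := rfl

theorem kr_r3 (d : ℤ) : kr d (r3 1) = r3 d := by
  funext i
  unfold kr r3
  split_ifs <;> simp

theorem PP_m3 : PP 2 m3 = 3 := by
  unfold PP m3
  simp [Finset.prod_range_succ]

/-- For every `c` with `0 < c < 1 - H(log 2 / log 3)` there is `C` such that for all odd `d` prime to `3`,
all `X ≥ 1` and all `y > 0`: at most `C X (|d| / y) ^ c` of the integers `x` with `|x| ≤ X` have a `3x+d`
orbit all of whose elements are larger than `y` in absolute value. -/
theorem result (c : ℝ) (hc0 : 0 < c)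
    (hc : c < 1 - Real.binEntropy (Real.log 2 / Real.log 3) / Real.log 2) :
    ∃ C : ℝ, 0 < C ∧ ∀ d : ℤ, d % 2 = 1 → ¬ (3 : ℤ) ∣ d → ∀ X y : ℝ, 1 ≤ X → 0 < y →
      ({x : ℤ | |(x : ℝ)| ≤ X ∧ ∀ n : ℕ, y < |(((T d)^[n] x : ℤ) : ℝ)|}.ncard : ℝ)
        ≤ C * X * (|(d : ℝ)| / y) ^ c := by
  have hc' : c < 1 - Pool.Agent.H319R2.beta := hc
  obtain ⟨η, hη1, hη2⟩ := exists_between (max_lt (by linarith : Pool.Agent.H319R2.beta < 1 - c)
    (by
        have h1 : (0 : ℝ) ≤ Pool.Agent.H319R2.beta := by
          unfold Pool.Agent.H319R2.beta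
          apply div_nonneg _ (Real.log_nonneg (by norm_num))
          apply Real.binEntropy_nonneg
          · exact div_nonneg (Real.log_nonneg (by norm_num)) (Real.log_nonneg (by norm_num))
          · rw [div_le_one (Real.log_pos (by norm_num))]
            exact Real.log_le_log (by norm_num) (by norm_num)
        linarith : (0 : ℝ) < 1 - c))
  have hb : Pool.Agent.H319R2.beta < η := (le_max_left _ _).trans_lt hη1
  have h0 : 0 < η := (le_max_right _ _).trans_lt hη1
  obtain ⟨s, hs, hsum⟩ := Pool.Agent.H319R2.Tk.cond η hb
  obtain ⟨C, hC, h⟩ := power_savingU (adm3 (k := 1) odd_one) (s := s) (η := η) hs h0.le (by linarith) (by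
    rw [Finset.sum_range_succ, Finset.sum_range_one]
    simp only [m3]
    norm_num
    have e : (1 / 2 : ℝ) ^ s = 2⁻¹ ^ s := by norm_num
    rw [e] at hsum
    first
      | exact hsum.le
      | (refine le_trans (le_of_eq ?_) hsum.le; norm_num)) hc0 (by linarith)
  refine ⟨C, hC, fun d hd hd3 X y hX hy => ?_⟩
  have hodd : Odd d := Int.odd_iff.2 hd
  have hcop : IsCoprime d (PP 2 m3 : ℤ) := by
    rw [PP_m3]
    have h3 : Prime (3 : ℤ) := Int.prime_three
    exact_mod_cast ((Prime.coprime_iff_not_dvd h3).2 hd3).symm
  have h1 := h d (by rintro rfl; simp at hd) hcop (by rw [kr_r3]; exact adm3 hodd) X y hX hy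
  rw [kr_r3, Tm3, ← T_eq] at h1
  exact h1

end Pool.Agent.Results.MP_d0d59f_nt.UniformInD
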