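import Pool.Agent.W36.PDV

set_option autoImplicit false

/-! # Predecessor sets of the `3x+d` maps: a lower bound uniform in the root AND in `d`

There are absolute constants `c, C > 0` such that for ALL odd `d` prime to `3`, ALL `a` prime to `3` and all
`X ≥ max(|a|, |d|)` at least `c X / max(|a|, |d|)` of the integers `x` of the sign of `a` with
`X / 2 < |x| ≤ X` have `a` in their `3x+d` orbit, after at most `C (1 + log (X / |a|))` steps.

So every merging class (basin of a cycle, or class of a divergent orbit) of `T_d` which contains an integer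
prime to `3` and of absolute value at most `A |d|` contains, in every dyadic block above `A |d|`, a
proportion at least `c / (A |d|)` of the integers of its sign; up to the constant this is the best possible
bound of this kind, since there may be `|d|` to the power `1 - o(1)` such classes.

Method: the quenched lower bound for the number of words of the inverse `3x+1` tree in the good classes
modulo `3^N` (`H320R2`, `H366R2`, `W38`), transferred to `T_d` through the `3`-adic number `a / d`; the
root is moved to the good class `d r` modulo `3^N` in a bounded number of steps, independent of `a` and of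
`d`. The case `d = 1` is the hand-in `MP_2d22f3_nt.UniformPredecessorDensity` of helper38. -/

namespace Pool.Agent.Results.MP_d0d59f_nt.UniformPredecessors

/-- the `3x+d` map on the integers -/
def T (d x : ℤ) : ℤ := if x % 2 = 0 then x / 2 else (3 * x + d) / 2

theorem T_eq (d : ℤ) : T d = Pool.Agent.H366R2.KGen.TK d := rfl

theorem fin (X : ℝ) (P : ℤ → Prop) : {x : ℤ | X / 2 < |(x : ℝ)| ∧ |(x : ℝ)| ≤ X ∧ P x}.Finite := by
  apply (Set.finite_Icc (-⌈X⌉) ⌈X⌉).subset
  rintro x ⟨-, hx, -⟩
  have h1 := abs_le.1 hx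
  have h2 := Int.le_ceil X
  rw [Set.mem_Icc]
  constructor
  · have : (-(⌈X⌉ : ℤ) : ℝ) ≤ x := by linarith
    exact_mod_cast this
  · have : (x : ℝ) ≤ (⌈X⌉ : ℤ) := by linarith
    exact_mod_cast this

/-- There are absolute constants `c, C > 0` such that for all odd `d` prime to `3`, all integers `a` prime
to `3` and all real `X ≥ max(|a|, |d|)`: at least `c X / max(|a|, |d|)` of the integers `x` with
`X / 2 < |x| ≤ X` and the sign of `a` satisfy `T_d^j x = a` for some `j ≤ C (1 + log (X / |a|))`. -/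
theorem result : ∃ c C : ℝ, 0 < c ∧ 0 < C ∧ ∀ d a : ℤ, d % 2 = 1 → ¬ (3 : ℤ) ∣ d → ¬ (3 : ℤ) ∣ a →
    ∀ X : ℝ, max |(a : ℝ)| |(d : ℝ)| ≤ X →
      c * X / max |(a : ℝ)| |(d : ℝ)| ≤
        ({x : ℤ | X / 2 < |(x : ℝ)| ∧ |(x : ℝ)| ≤ X ∧ 0 < x * a ∧
          ∃ j : ℕ, (j : ℝ) ≤ C * (1 + Real.log (X / |(a : ℝ)|)) ∧ (T d)^[j] x = a}.ncard : ℝ) := by
  obtain ⟨c, C, hc, hC, h⟩ := Pool.Agent.W36.PDU.mainKall
  refine ⟨c, C, hc, hC, fun d a hd hd3 ha X hX => ?_⟩
  obtain ⟨S, hS, hcard⟩ := h d a hd hd3 ha X ((le_max_left _ _).trans hX) ((le_max_right _ _).trans hX)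
  refine hcard.trans ?_
  have h1 : (S : Set ℤ) ⊆ {x : ℤ | X / 2 < |(x : ℝ)| ∧ |(x : ℝ)| ≤ X ∧ 0 < x * a ∧
          ∃ j : ℕ, (j : ℝ) ≤ C * (1 + Real.log (X / |(a : ℝ)|)) ∧ (T d)^[j] x = a} := by
    intro z hz
    exact hS z hz
  have h2 := Set.ncard_le_ncard h1 (fin X _)
  rw [Set.ncard_coe_finset] at h2
  exact_mod_cast h2

end Pool.Agent.Results.MP_d0d59f_nt.UniformPredecessors
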